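import Mathlib
import Pool.Agent.K6.H69.M1.Or
import Pool.Agent.H679R2.M1.Defs

/-!
# The disjunction of many formulas with a few more literals per clause

Given formulas `z α` in `v` variables with at most `w` literals per clause, one for each
`α : Fin r → Fin v`, there is a formula in `v + r v + r (v + 1)` variables with at most `w + r`
literals per clause which is satisfiable if and only if one of them is. For each `j : Fin r` there
are selectors `Y j i`, one of which must be true, and each clause of `z α` gets the additional
literals `¬ Y j (α j)`.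
-/

set_option autoImplicit false

namespace Pool.Agent.K6.H69.M1

open Finset
open Pool.Agent.H679R2.M1 (Clause Sat card_clause)

/-- the variables: the common ones, the selectors, and auxiliary ones -/
abbrev Var (r v : ℕ) : Type := Fin v ⊕ ((Fin r × Fin v) ⊕ (Fin r × Fin (v + 1)))

/-- the number of variables -/
def nv (r v : ℕ) : ℕ := v + (r * v + r * (v + 1))

theorem card_var (r v : ℕ) : Fintype.card (Var r v) = nv r v := by
  simp [nv]

/-- the numbering of the variables -/
noncomputable def num (r v : ℕ) : Var r v ≃ Fin (nv r v) :=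
  Fintype.equivFinOfCardEq (card_var r v)

section

variable {r v w D : ℕ}

/-- the clause `C` of the formula number `α` with its additional literals -/
noncomputable def enc (α : Fin r → Fin v) (C : Clause v w) : Finset (Fin (nv r v) × Bool) :=
  (C.1.image fun l => (num r v (Sum.inl l.1), l.2)) ∪
    univ.image fun j => (num r v (Sum.inr (Sum.inl (j, α j))), false)

theorem enc_card (α : Fin r → Fin v) (C : Clause v w) : (enc α C).card ≤ w + r := by
  unfold enc
  refine (Finset.card_union_le _ _).trans (Nat.add_le_add ?_ ?_)
  · exact Finset.card_image_le.trans C.2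
  · refine Finset.card_image_le.trans ?_
    simp

theorem mem_enc_inl {α : Fin r → Fin v} {C : Clause v w} {l : Fin v × Bool} :
    (num r v (Sum.inl l.1), l.2) ∈ enc α C ↔ l ∈ C.1 := by
  unfold enc
  rw [Finset.mem_union, Finset.mem_image, Finset.mem_image]
  constructor
  · rintro (⟨l', h1, h2⟩ | ⟨j, -, h2⟩)
    · have e1 : l'.1 = l.1 := Sum.inl_injective ((num r v).injective (congrArg Prod.fst h2))
      have e2 : l'.2 = l.2 := (Prod.mk.inj h2).2
      have : l' = l := Prod.ext e1 e2
      rwa [this] at h1
    · have e1 := (num r v).injective (congrArg Prod.fst h2)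
      exact absurd e1 (by simp)
  · intro h
    exact Or.inl ⟨l, h, rfl⟩

theorem mem_enc_sel {α : Fin r → Fin v} {C : Clause v w} {j : Fin r} {i : Fin v} :
    (num r v (Sum.inr (Sum.inl (j, i))), false) ∈ enc α C ↔ α j = i := by
  unfold enc
  rw [Finset.mem_union, Finset.mem_image, Finset.mem_image]
  constructor
  · rintro (⟨l', h1, h2⟩ | ⟨j', -, h2⟩)
    · have e1 := (num r v).injective (congrArg Prod.fst h2)
      exact absurd e1 (by simp)
    · have e1 := (num r v).injective (congrArg Prod.fst h2)
      simp only [Sum.inr.injEq, Sum.inl.injEq, Prod.mk.injEq] at e1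
      rw [← e1.1]
      exact e1.2
  · intro h
    exact Or.inr ⟨j, Finset.mem_univ _, by rw [h]⟩

theorem enc_inj {α α' : Fin r → Fin v} {C C' : Clause v w} (h : enc α C = enc α' C') :
    α = α' ∧ C = C' := by
  constructor
  · funext j
    have := (mem_enc_sel (α := α) (C := C) (j := j) (i := α j)).2 rfl
    rw [h, mem_enc_sel] at this
    exact this.symm
  · apply Subtype.ext
    ext l
    rw [← mem_enc_inl (α := α) (C := C), h, mem_enc_inl]

variable (r v) in
/-- the fixed clauses -/
def Fixed (c : Finset (Fin (nv r v) × Bool)) : Prop :=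
  (∃ j : Fin r, c = {(num r v (Sum.inr (Sum.inr (j, 0))), true)}) ∨
  (∃ j : Fin r, c = {(num r v (Sum.inr (Sum.inr (j, Fin.last v))), false)}) ∨
  ∃ (j : Fin r) (i : Fin v), c = {(num r v (Sum.inr (Sum.inl (j, i))), true),
    (num r v (Sum.inr (Sum.inr (j, i.castSucc))), false),
    (num r v (Sum.inr (Sum.inr (j, i.succ))), true)}

/-- the large formula -/
def Big (z : (Fin r → Fin v) → Clause v w → Bool) (c : Clause (nv r v) D) : Prop :=
  Fixed r v c.1 ∨ ∃ α C, c.1 = enc α C ∧ z α C = true

theorem sat_big (hD : w + r ≤ D) (h3 : 3 ≤ D) (z : (Fin r → Fin v) → Clause v w → Bool)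
    (φ : Clause (nv r v) D → Bool) (hφ : ∀ c, φ c = true ↔ Big z c) :
    Sat φ ↔ ∃ α, Sat (z α) := by
  classical
  constructor
  · rintro ⟨A, hA⟩
    have hsel : ∀ j : Fin r, ∃ i : Fin v, A (num r v (Sum.inr (Sum.inl (j, i)))) = true := by
      intro j
      by_contra hcon
      push Not at hcon
      have hall : ∀ i : Fin (v + 1), A (num r v (Sum.inr (Sum.inr (j, i)))) = true := by
        intro i
        induction i using Fin.induction with
        | zero =>
          obtain ⟨l, hl, hl2⟩ := hA ⟨{(num r v (Sum.inr (Sum.inr (j, 0))), true)}, by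
            rw [Finset.card_singleton]; omega⟩ ((hφ _).2 (Or.inl (Or.inl ⟨j, rfl⟩)))
          rw [Finset.mem_singleton] at hl
          rw [hl] at hl2
          exact hl2
        | succ i ih =>
          obtain ⟨l, hl, hl2⟩ := hA ⟨{(num r v (Sum.inr (Sum.inl (j, i))), true),
            (num r v (Sum.inr (Sum.inr (j, i.castSucc))), false),
            (num r v (Sum.inr (Sum.inr (j, i.succ))), true)}, Finset.card_le_three.trans h3⟩
            ((hφ _).2 (Or.inl (Or.inr (Or.inr ⟨j, i, rfl⟩))))
          simp only [Finset.mem_insert, Finset.mem_singleton] at hl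
          rcases hl with hl | hl | hl
          · rw [hl] at hl2
            exact absurd hl2 (hcon i)
          · rw [hl] at hl2
            rw [ih] at hl2
            exact absurd hl2 (by simp)
          · rw [hl] at hl2
            exact hl2
      obtain ⟨l, hl, hl2⟩ := hA ⟨{(num r v (Sum.inr (Sum.inr (j, Fin.last v))), false)}, by
            rw [Finset.card_singleton]; omega⟩ ((hφ _).2 (Or.inl (Or.inr (Or.inl ⟨j, rfl⟩))))
      rw [Finset.mem_singleton] at hl
      rw [hl] at hl2
      rw [hall] at hl2
      exact absurd hl2 (by simp)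
    choose α hα using hsel
    refine ⟨α, fun i => A (num r v (Sum.inl i)), fun C hC => ?_⟩
    obtain ⟨l, hl, hl2⟩ := hA ⟨enc α C, (enc_card α C).trans hD⟩
      ((hφ _).2 (Or.inr ⟨α, C, rfl, hC⟩))
    unfold enc at hl
    rw [Finset.mem_union, Finset.mem_image, Finset.mem_image] at hl
    rcases hl with ⟨l', h1, rfl⟩ | ⟨j, -, rfl⟩
    · exact ⟨l', h1, hl2⟩
    · dsimp only at hl2
      rw [hα] at hl2
      exact absurd hl2 (by simp)
  · rintro ⟨α, a, ha⟩
    set A : Fin (nv r v) → Bool := fun p => Sum.elim a (Sum.elim (fun q => decide (α q.1 = q.2))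
      (fun q => decide (q.2.val ≤ (α q.1).val))) ((num r v).symm p) with hA
    have e1 : ∀ i, A (num r v (Sum.inl i)) = a i := fun i => by
      rw [hA]; simp
    have e2 : ∀ j i, A (num r v (Sum.inr (Sum.inl (j, i)))) = decide (α j = i) := fun j i => by
      rw [hA]; simp
    have e3 : ∀ j i, A (num r v (Sum.inr (Sum.inr (j, i)))) = decide (i.val ≤ (α j).val) :=
      fun j i => by rw [hA]; simp
    refine ⟨A, fun c hc => ?_⟩
    rcases (hφ c).1 hc with (⟨j, h⟩ | ⟨j, h⟩ | ⟨j, i, h⟩) | ⟨β, C, h, hz⟩
    · refine ⟨_, by rw [h]; exact Finset.mem_singleton_self _, ?_⟩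
      rw [e3]
      simp
    · refine ⟨_, by rw [h]; exact Finset.mem_singleton_self _, ?_⟩
      rw [e3]
      have := (α j).isLt
      simp only [Fin.val_last, decide_eq_false_iff_not, not_le]
      exact this
    · rw [h]
      by_cases h1 : α j = i
      · refine ⟨_, Finset.mem_insert_self _ _, ?_⟩
        rw [e2]
        exact decide_eq_true h1
      · by_cases h2 : i.val ≤ (α j).val
        · refine ⟨_, Finset.mem_insert_of_mem (Finset.mem_insert_of_mem
            (Finset.mem_singleton_self _)), ?_⟩
          rw [e3]
          have h3 : i.val ≠ (α j).val := fun h => h1 (Fin.ext h.symm)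
          simp only [Fin.val_succ, decide_eq_true_eq]
          omega
        · refine ⟨_, Finset.mem_insert_of_mem (Finset.mem_insert_self _ _), ?_⟩
          rw [e3]
          simp only [Fin.val_castSucc, decide_eq_false_iff_not]
          exact h2
    · by_cases hβ : β = α
      · rw [hβ] at hz h
        obtain ⟨l, hl, hl2⟩ := ha C hz
        refine ⟨(num r v (Sum.inl l.1), l.2), by rw [h]; exact mem_enc_inl.2 hl, ?_⟩
        rw [e1]
        exact hl2
      · obtain ⟨j, hj⟩ : ∃ j, α j ≠ β j := by
          by_contra hcon
          push Not at hcon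
          exact hβ (funext fun j => (hcon j).symm)
        refine ⟨(num r v (Sum.inr (Sum.inl (j, β j))), false), by
          rw [h]; exact mem_enc_sel.2 rfl, ?_⟩
        rw [e2]
        exact decide_eq_false hj

/-! ### the bits of the large formula -/

variable (r v w D) in
open Classical in
/-- the sources of the bits -/
noncomputable def source (c : Clause (nv r v) D) :
    Bool ⊕ ((Fin r → Fin v) × Fin (Fintype.card (Clause v w))) :=
  if Fixed r v c.1 then Sum.inl true
  else if h : ∃ p : (Fin r → Fin v) × Clause v w, c.1 = enc p.1 p.2 then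
    Sum.inr (h.choose.1, Fintype.equivFin (Clause v w) h.choose.2)
  else Sum.inl false

theorem source_iff (y : (Fin r → Fin v) → Fin (Fintype.card (Clause v w)) → Bool)
    (c : Clause (nv r v) D) :
    Sum.elim (fun β => β) (fun p => y p.1 p.2) (source r v w D c) = true ↔
      Big (fun α C => y α (Fintype.equivFin (Clause v w) C)) c := by
  classical
  unfold source Big
  by_cases h1 : Fixed r v c.1
  · rw [if_pos h1]
    simp [h1]
  · rw [if_neg h1]
    by_cases h2 : ∃ p : (Fin r → Fin v) × Clause v w, c.1 = enc p.1 p.2
    · rw [dif_pos h2]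
      have hs := h2.choose_spec
      constructor
      · intro h
        exact Or.inr ⟨_, _, hs, h⟩
      · rintro (h | ⟨α, C, h3, h4⟩)
        · exact absurd h h1
        · obtain ⟨e1, e2⟩ := enc_inj (hs.symm.trans h3)
          show y h2.choose.1 (Fintype.equivFin (Clause v w) h2.choose.2) = true
          rw [e1, e2]
          exact h4
    · rw [dif_neg h2]
      constructor
      · intro h
        exact absurd h (by simp)
      · rintro (h | ⟨α, C, h3, -⟩)
        · exact absurd h h1
        · exact absurd ⟨(α, C), h3⟩ h2

end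

end Pool.Agent.K6.H69.M1
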