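import Mathlib
import Pool.Agent.K6.H69.M1.Enc
import Pool.Agent.K6.H3.FS.Unsat

/-!
# Compressions of `p-log-SAT(Γ_{1,D})`
-/

set_option autoImplicit false

namespace Pool.Agent.K6.H69.M1

open Finset Filter Pool.Agent.H540R2 Pool.Agent.H540R2.Circuit
open Pool.Agent.H679R2.M1 (Clause Sat card_clause)
open Pool.Agent.K6.H3.FS (UnsatNondet eventually_poly)

/-- The formula with the bits `x`, one for each possible clause. -/
noncomputable def form {N D : ℕ} (x : Fin (Fintype.card (Clause N D)) → Bool) : Clause N D → Bool :=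
  fun c => x (Fintype.equivFin (Clause N D) c)

theorem form_symm {N D : ℕ} (φ : Clause N D → Bool) :
    form (fun i => φ ((Fintype.equivFin (Clause N D)).symm i)) = φ := by
  funext c
  unfold form
  beta_reduce
  rw [Equiv.symm_apply_apply]

/-- `p-log-SAT(Γ_{1,D})` has nonuniform compressions to `(g k * log n) ^ e` bits: for instances of
size `n` and parameter `k`, that is, formulas in `N ≤ k (log n + 1)` variables with at most `D`
literals per clause, circuits of size `f k * n ^ c` compute `B ≤ (g k * (log n + 1)) ^ e` bits, which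
are different for satisfiable and unsatisfiable formulas. Nothing is assumed on how the answer is
obtained from these bits. -/
def Compresses (D e : ℕ) : Prop :=
  ∃ (f g : ℕ → ℕ) (c : ℕ), ∀ k, ∀ n ≥ 2, ∀ N ≤ k * (Nat.log 2 n + 1),
    ∃ B ≤ (g k * (Nat.log 2 n + 1)) ^ e,
      ∃ (C : Circuit (Fintype.card (Clause N D))) (o : Fin B → Node (Fintype.card (Clause N D))),
        C.size ≤ f k * n ^ c ∧ (∀ i j, (o i).wires j ≠ 0 → j < C.size) ∧
        ∀ x y, (∀ i, (o i).eval x (C.val x) = (o i).eval y (C.val y)) →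
          (Sat (form x) ↔ Sat (form y))

/-- the large formula is the disjunction -/
theorem big_or {r v w D : ℕ} (hD : w + r ≤ D) (h3 : 3 ≤ D)
    (y : (Fin r → Fin v) → Fin (Fintype.card (Clause v w)) → Bool) :
    Sat (form (pull (fun e => source r v w D ((Fintype.equivFin (Clause (nv r v) D)).symm e)) y))
      ↔ ∃ α, Sat (form (y α)) := by
  refine sat_big hD h3 (fun α => form (y α)) _ fun c => ?_
  unfold form pull
  beta_reduce
  rw [Equiv.symm_apply_apply]
  exact source_iff y c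

/-- the circuit for one number of variables -/
theorem unsat_of_bits {r v w D B s : ℕ} (hv : 0 < v) (hD : w + r ≤ D) (h3 : 3 ≤ D)
    (hB : B ≤ v ^ r) (C : Circuit (Fintype.card (Clause (nv r v) D)))
    (o : Fin B → Node (Fintype.card (Clause (nv r v) D))) (hs : C.size ≤ s)
    (ho : ∀ i j, (o i).wires j ≠ 0 → j < C.size)
    (hC : ∀ x y, (∀ i, (o i).eval x (C.val x) = (o i).eval y (C.val y)) →
      (Sat (form x) ↔ Sat (form y))) :
    ∃ (m : ℕ) (Q : Circuit (Fintype.card (Clause v w) + m)),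
      m = v ^ r * Fintype.card (Clause v w) ∧ Q.size ≤ s +
        v ^ r * (6 * Fintype.card (Clause v w) + 1) +
        (Fintype.card (Clause v w) + 1) * (2 * B + 1) + 1 ∧
      ∀ φ : Clause v w → Bool, (∃ u, Q.eval (Fin.append (fun i => φ
        ((Fintype.equivFin (Clause v w)).symm i)) u) = true) ↔ ¬ Sat φ := by
  classical
  have hι : Fintype.card (Fin r → Fin v) = v ^ r := by
    rw [Fintype.card_fun, Fintype.card_fin, Fintype.card_fin]
  obtain ⟨Q, q1, q2, q3⟩ := fs_circuit (a := Fintype.card (Clause v w)) (ι := Fin r → Fin v)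
    (by rw [hι]; exact pow_pos hv r) C o ho (by rw [hι]; exact hB)
    (fun e => source r v w D ((Fintype.equivFin (Clause (nv r v) D)).symm e))
    (fun x => Sat (form x)) (fun x => ¬ Sat (form x)) (fun z z' hz hz' heq => by
      have h1 := hC _ _ heq
      rw [big_or hD h3, big_or hD h3] at h1
      obtain ⟨i, hi⟩ := h1.2 hz'
      exact hz i hi)
  refine ⟨_, Q, by rw [hι], ?_, fun φ => ?_⟩
  · rw [← hι]
    exact q1.trans (by gcongr)
  · constructor
    · rintro ⟨u, hu⟩ hcon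
      have := q3 (fun i => φ ((Fintype.equivFin (Clause v w)).symm i))
        (by rw [form_symm]; exact hcon) u
      rw [this] at hu
      exact absurd hu (by simp)
    · intro h
      exact q2 _ (by rw [form_symm]; exact h)

/-- the estimates -/
theorem finish {w r c K F : ℕ} {ε : ℝ} (hKε : (c : ℝ) / K ≤ ε / 2) {v : ℕ}
    (hv : ((F : ℝ) * 2 ^ c + 14 * 3 ^ w) * (v : ℝ) ^ (w + r) ≤ 2 ^ (ε / 2 * v)) (hv1 : 1 ≤ v)
    {B : ℕ} (hB : B ≤ v ^ r) {m : ℕ} (Q : Circuit (Fintype.card (Clause v w) + m))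
    (hm : m = v ^ r * Fintype.card (Clause v w))
    (hQ : Q.size ≤ F * (2 ^ (v / K + 1)) ^ c + v ^ r * (6 * Fintype.card (Clause v w) + 1) +
      (Fintype.card (Clause v w) + 1) * (2 * B + 1) + 1)
    (hQ2 : ∀ φ : Clause v w → Bool, (∃ u, Q.eval (Fin.append (fun i => φ
        ((Fintype.equivFin (Clause v w)).symm i)) u) = true) ↔ ¬ Sat φ) :
    UnsatNondet w ε v := by
  obtain ⟨a, ha⟩ : ∃ a, a = Fintype.card (Clause v w) := ⟨_, rfl⟩
  obtain ⟨A, hA⟩ : ∃ A, A = 3 ^ w * v ^ w := ⟨_, rfl⟩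
  obtain ⟨R, hR⟩ : ∃ R, R = v ^ r := ⟨_, rfl⟩
  have haA : a ≤ A := by
    rw [ha, hA, ← mul_pow]
    exact (card_clause v w).trans (Nat.pow_le_pow_left (by omega) _)
  have hA1 : 1 ≤ A := by
    rw [hA]
    have : 0 < 3 ^ w * v ^ w := by positivity
    omega
  have hR1 : 1 ≤ R := by
    rw [hR]
    exact Nat.one_le_pow _ _ hv1
  have hAR : A * R = 3 ^ w * v ^ (w + r) := by rw [hA, hR]; ring
  have hrest : R * (6 * a + 1) + (a + 1) * (2 * B + 1) + 1 ≤ 14 * (A * R) := by
    have h1 : R * (6 * a + 1) ≤ R * (7 * A) := Nat.mul_le_mul_left _ (by omega)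
    have h2 : (a + 1) * (2 * B + 1) ≤ (2 * A) * (3 * R) :=
      Nat.mul_le_mul (by omega) (by rw [← hR] at hB; omega)
    have h3 : 1 ≤ A * R := Nat.mul_pos hA1 hR1
    have h4 : R * (7 * A) = 7 * (A * R) := by ring
    have h5 : (2 * A) * (3 * R) = 6 * (A * R) := by ring
    omega
  have hfin : F * (2 ^ (v / K + 1)) ^ c + 14 * (A * R) ≤
      (F * 2 ^ c + 14 * 3 ^ w) * v ^ (w + r) * 2 ^ (c * (v / K)) := by
    have h1 : (2 ^ (v / K + 1)) ^ c = 2 ^ c * 2 ^ (c * (v / K)) := by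
      rw [← pow_mul, ← pow_add]
      congr 1
      ring
    have h2 : 1 ≤ v ^ (w + r) := Nat.one_le_pow _ _ hv1
    have h3 : 1 ≤ 2 ^ (c * (v / K)) := Nat.one_le_pow _ _ (by norm_num)
    rw [h1, hAR]
    calc F * (2 ^ c * 2 ^ (c * (v / K))) + 14 * (3 ^ w * v ^ (w + r))
        ≤ F * (2 ^ c * 2 ^ (c * (v / K))) * v ^ (w + r) +
          14 * (3 ^ w * v ^ (w + r)) * 2 ^ (c * (v / K)) :=
          Nat.add_le_add (Nat.le_mul_of_pos_right _ h2) (Nat.le_mul_of_pos_right _ h3)
      _ = _ := by ring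
  have hreal : (((F * 2 ^ c + 14 * 3 ^ w) * v ^ (w + r) * 2 ^ (c * (v / K)) : ℕ) : ℝ) ≤
      2 ^ (ε * v) := by
    push_cast
    have h1 : (2 : ℝ) ^ (c * (v / K)) ≤ 2 ^ (ε / 2 * v) := by
      rw [← Real.rpow_natCast]
      refine Real.rpow_le_rpow_of_exponent_le (by norm_num) ?_
      push_cast
      have h2 : ((v / K : ℕ) : ℝ) ≤ v / K := Nat.cast_div_le
      calc (c : ℝ) * ((v / K : ℕ) : ℝ) ≤ (c : ℝ) * (v / K) := by gcongr
        _ = (c : ℝ) / K * v := by ring
        _ ≤ ε / 2 * v := mul_le_mul_of_nonneg_right hKε (Nat.cast_nonneg _)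
    calc ((F : ℝ) * 2 ^ c + 14 * 3 ^ w) * (v : ℝ) ^ (w + r) * 2 ^ (c * (v / K))
        ≤ 2 ^ (ε / 2 * v) * 2 ^ (ε / 2 * v) :=
          mul_le_mul hv h1 (by positivity) (by positivity)
      _ = 2 ^ (ε * v) := by
          rw [← Real.rpow_add (by norm_num)]
          congr 1
          ring
  refine ⟨m, Q, ?_, ?_, hQ2⟩
  · refine le_trans ?_ hreal
    have hQ' : Q.size ≤ F * (2 ^ (v / K + 1)) ^ c + R * (6 * a + 1) + (a + 1) * (2 * B + 1) + 1 := by
      rw [ha, hR]
      exact hQ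
    have : Q.size ≤ F * (2 ^ (v / K + 1)) ^ c + 14 * (A * R) := by omega
    exact_mod_cast this.trans hfin
  · refine le_trans ?_ hreal
    have h1 : m ≤ 14 * (A * R) := by
      rw [hm, ← ha, ← hR]
      calc R * a ≤ R * A := Nat.mul_le_mul_left _ haA
        _ = A * R := by ring
        _ ≤ 14 * (A * R) := Nat.le_mul_of_pos_left _ (by norm_num)
    have : m ≤ F * (2 ^ (v / K + 1)) ^ c + 14 * (A * R) := by omega
    exact_mod_cast this.trans hfin

theorem choose_K (c : ℕ) {ε : ℝ} (hε : 0 < ε) : ∃ K : ℕ, 0 < K ∧ (c : ℝ) / K ≤ ε / 2 := by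
  obtain ⟨K, hK⟩ : ∃ K : ℕ, K = ⌈2 * (c : ℝ) / ε⌉₊ + 1 := ⟨_, rfl⟩
  have hK0 : 0 < K := by omega
  refine ⟨K, hK0, ?_⟩
  have h1 : 2 * (c : ℝ) / ε ≤ K := by
    rw [hK]; push_cast
    have := Nat.le_ceil (2 * (c : ℝ) / ε)
    linarith
  rw [div_le_iff₀ hε] at h1
  rw [div_le_iff₀ (by exact_mod_cast hK0)]
  linarith

theorem two_le_pow (t : ℕ) : 2 ≤ 2 ^ (t + 1) := by
  rw [pow_succ]
  have : 0 < 2 ^ t := by positivity
  omega

theorem lt_log (K v : ℕ) (hK : 0 < K) : v ≤ K * (Nat.log 2 (2 ^ (v / K + 1)) + 1) := by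
  rw [Nat.log_pow (by norm_num)]
  have h5 : v < K * (v / K + 1) := Nat.lt_mul_div_succ v hK
  have h6 : K * (v / K + 1) ≤ K * (v / K + 1 + 1) := Nat.mul_le_mul_left _ (by omega)
  omega

theorem log_le {K v : ℕ} (hv : 1 ≤ v) : Nat.log 2 (2 ^ (v / K + 1)) + 1 ≤ 3 * v := by
  rw [Nat.log_pow (by norm_num)]
  have h1 : v / K ≤ v := Nat.div_le_self _ _
  omega

theorem bits_le {g e K v : ℕ} (hv : 1 ≤ v) (hvg : (3 * g) ^ e ≤ v) :
    (g * (Nat.log 2 (2 ^ (v / K + 1)) + 1)) ^ e ≤ v ^ (e + 1) := by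
  calc (g * (Nat.log 2 (2 ^ (v / K + 1)) + 1)) ^ e ≤ (g * (3 * v)) ^ e :=
        Nat.pow_le_pow_left (Nat.mul_le_mul_left _ (log_le hv)) _
    _ = (3 * g) ^ e * v ^ e := by rw [← mul_pow]; ring
    _ ≤ v * v ^ e := Nat.mul_le_mul_right _ hvg
    _ = v ^ (e + 1) := by ring

/-- **Compressions of `p-log-SAT(Γ_{1,D})` to few bits give nondeterministic circuits of
subexponential size for unsatisfiability.** -/
theorem unsat_of_compresses {w e D : ℕ} (h3 : 3 ≤ w) (hD : w + e + 1 ≤ D) (h : Compresses D e)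
    (ε : ℝ) (hε : 0 < ε) : ∀ᶠ v : ℕ in atTop, UnsatNondet w ε v := by
  obtain ⟨f, g, c, h⟩ := h
  obtain ⟨K, hK0, hKε⟩ := choose_K c hε
  obtain ⟨k, hk⟩ : ∃ k, k = (3 * (e + 1) + 1) * K := ⟨_, rfl⟩
  filter_upwards [eventually_poly (half_pos hε) (f k * 2 ^ c + 14 * 3 ^ w) (w + (e + 1)),
    eventually_ge_atTop 1, eventually_ge_atTop ((3 * g k) ^ e)] with v hv hv1 hvg
  have hN : nv (e + 1) v ≤ k * (Nat.log 2 (2 ^ (v / K + 1)) + 1) := by
    have h1 : nv (e + 1) v ≤ (3 * (e + 1) + 1) * v := by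
      unfold nv
      have h2 : (e + 1) * (v + 1) = (e + 1) * v + (e + 1) := by ring
      have h3 : e + 1 ≤ (e + 1) * v := Nat.le_mul_of_pos_right _ hv1
      have h4 : (3 * (e + 1) + 1) * v = (e + 1) * v + (e + 1) * v + (e + 1) * v + v := by ring
      omega
    refine h1.trans ?_
    rw [hk, mul_assoc]
    exact Nat.mul_le_mul_left _ (lt_log K v hK0)
  obtain ⟨B, hB, C, o, hs, ho, hC⟩ := h k _ (two_le_pow (v / K)) (nv (e + 1) v) hN
  obtain ⟨m, Q, hm, hQ, hQ2⟩ := unsat_of_bits (w := w) hv1 (by omega) (by omega)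
    (hB.trans (bits_le hv1 hvg)) C o hs ho hC
  exact finish hKε hv hv1 (hB.trans (bits_le hv1 hvg)) Q hm hQ hQ2

/-! ### disjunctions -/

/-- Disjunctions of `t n` instances of size `n` and parameter `k` of `p-log-SAT(Γ_{1,w})` have
nonuniform compressions to `(g k * log n) ^ e` bits. -/
def OrCompresses (w e : ℕ) (t : ℕ → ℕ) : Prop :=
  ∃ (f g : ℕ → ℕ) (c : ℕ), ∀ k, ∀ n ≥ 2, ∀ N ≤ k * (Nat.log 2 n + 1),
    ∃ B ≤ (g k * (Nat.log 2 n + 1)) ^ e,
      ∃ (C : Circuit (t n * Fintype.card (Clause N w)))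
        (o : Fin B → Node (t n * Fintype.card (Clause N w))),
        C.size ≤ f k * n ^ c ∧ (∀ i j, (o i).wires j ≠ 0 → j < C.size) ∧
        ∀ x y, (∀ i, (o i).eval x (C.val x) = (o i).eval y (C.val y)) →
          ((∃ s : Fin (t n), Sat (form fun b => x (finProdFinEquiv (s, b)))) ↔
            ∃ s : Fin (t n), Sat (form fun b => y (finProdFinEquiv (s, b))))

/-- the circuit for one number of variables -/
theorem unsat_of_bits_or {T T' v w B s : ℕ} (hT : 0 < T') (hTT : T' ≤ T) (hB : B ≤ T')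
    (C : Circuit (T * Fintype.card (Clause v w)))
    (o : Fin B → Node (T * Fintype.card (Clause v w))) (hs : C.size ≤ s)
    (ho : ∀ i j, (o i).wires j ≠ 0 → j < C.size)
    (hC : ∀ x y, (∀ i, (o i).eval x (C.val x) = (o i).eval y (C.val y)) →
      ((∃ s : Fin T, Sat (form fun b => x (finProdFinEquiv (s, b)))) ↔
            ∃ s : Fin T, Sat (form fun b => y (finProdFinEquiv (s, b))))) :
    ∃ (m : ℕ) (Q : Circuit (Fintype.card (Clause v w) + m)),
      m = T' * Fintype.card (Clause v w) ∧ Q.size ≤ s +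
        T' * (6 * Fintype.card (Clause v w) + 1) +
        (Fintype.card (Clause v w) + 1) * (2 * B + 1) + 1 ∧
      ∀ φ : Clause v w → Bool, (∃ u, Q.eval (Fin.append (fun i => φ
        ((Fintype.equivFin (Clause v w)).symm i)) u) = true) ↔ ¬ Sat φ := by
  classical
  obtain ⟨src, hsrc⟩ : ∃ src : Fin (T * Fintype.card (Clause v w)) →
      Bool ⊕ (Fin T' × Fin (Fintype.card (Clause v w))), src = fun e =>
        if h : (finProdFinEquiv.symm e).1.val < T' then
          Sum.inr (⟨(finProdFinEquiv.symm e).1.val, h⟩, (finProdFinEquiv.symm e).2)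
        else Sum.inl true := ⟨_, rfl⟩
  have hpull : ∀ (y : Fin T' → Fin (Fintype.card (Clause v w)) → Bool) (s : Fin T),
      (fun b => pull src y (finProdFinEquiv (s, b))) =
        if h : s.val < T' then y ⟨s.val, h⟩ else fun _ => true := by
    intro y s
    funext b
    unfold pull
    rw [hsrc]
    beta_reduce
    rw [Equiv.symm_apply_apply]
    by_cases h : s.val < T'
    · rw [dif_pos h, dif_pos h]
      rfl
    · rw [dif_neg h, dif_neg h]
      rfl
  have hor : ∀ y : Fin T' → Fin (Fintype.card (Clause v w)) → Bool,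
      (∃ s : Fin T, Sat (form fun b => pull src y (finProdFinEquiv (s, b)))) ↔
        ∃ s, Sat (form (y s)) := by
    intro y
    constructor
    · rintro ⟨s, h1⟩
      rw [hpull] at h1
      by_cases h : s.val < T'
      · rw [dif_pos h] at h1
        exact ⟨_, h1⟩
      · rw [dif_neg h] at h1
        obtain ⟨a, ha⟩ := h1
        obtain ⟨l, hl, -⟩ := ha ⟨∅, by simp⟩ rfl
        exact absurd hl (by simp)
    · rintro ⟨s, h1⟩
      refine ⟨⟨s.val, s.isLt.trans_le hTT⟩, ?_⟩
      rw [hpull, dif_pos s.isLt]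
      exact h1
  obtain ⟨Q, q1, q2, q3⟩ := fs_circuit (a := Fintype.card (Clause v w)) (ι := Fin T')
    (by rw [Fintype.card_fin]; exact hT) C o ho (by rw [Fintype.card_fin]; exact hB) src
    (fun x => Sat (form x)) (fun x => ¬ Sat (form x)) (fun z z' hz hz' heq => by
      have h1 := hC _ _ heq
      rw [hor, hor] at h1
      obtain ⟨i, hi⟩ := h1.2 hz'
      exact hz i hi)
  have hι : Fintype.card (Fin T') = T' := Fintype.card_fin _
  refine ⟨_, Q, by rw [hι], ?_, fun φ => ?_⟩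
  · refine q1.trans ?_
    rw [hι]
    gcongr
  · constructor
    · rintro ⟨u, hu⟩ hcon
      have := q3 (fun i => φ ((Fintype.equivFin (Clause v w)).symm i))
        (by rw [form_symm]; exact hcon) u
      rw [this] at hu
      exact absurd hu (by simp)
    · intro h
      exact q2 _ (by rw [form_symm]; exact h)

/-- **Compressions of disjunctions of more than polylogarithmically many instances.** -/
theorem unsat_of_orCompresses {w e : ℕ} {t : ℕ → ℕ}
    (ht : ∀ M : ℕ, ∀ᶠ n : ℕ in atTop, M * (Nat.log 2 n + 1) ^ (e + 1) ≤ t n)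
    (h : OrCompresses w e t) (ε : ℝ) (hε : 0 < ε) : ∀ᶠ v : ℕ in atTop, UnsatNondet w ε v := by
  obtain ⟨f, g, c, h⟩ := h
  obtain ⟨K, hK0, hKε⟩ := choose_K c hε
  have htend : Tendsto (fun v : ℕ => 2 ^ (v / K + 1)) atTop atTop := by
    refine (tendsto_pow_atTop_atTop_of_one_lt (by norm_num : (1 : ℕ) < 2)).comp ?_
    exact (tendsto_add_atTop_nat 1).comp (Nat.tendsto_div_const_atTop hK0.ne')
  filter_upwards [eventually_poly (half_pos hε) (f K * 2 ^ c + 14 * 3 ^ w) (w + (e + 1)),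
    eventually_ge_atTop 1, eventually_ge_atTop ((3 * g K) ^ e),
    htend.eventually (ht (K ^ (e + 1)))] with v hv hv1 hvg htv
  obtain ⟨B, hB, C, o, hs, ho, hC⟩ := h K _ (two_le_pow (v / K)) v (lt_log K v hK0)
  have hT : v ^ (e + 1) ≤ t (2 ^ (v / K + 1)) := by
    refine le_trans ?_ htv
    rw [← mul_pow]
    exact Nat.pow_le_pow_left (lt_log K v hK0) _
  obtain ⟨m, Q, hm, hQ, hQ2⟩ := unsat_of_bits_or (w := w) (pow_pos hv1 (e + 1)) hT
    (hB.trans (bits_le hv1 hvg)) C o hs ho hC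
  exact finish hKε hv hv1 (hB.trans (bits_le hv1 hvg)) Q hm hQ hQ2

/-! ### reductions -/

/-- There are nonuniform truth-table reductions of fpt size from `p-log-SAT(Γ_{1,D})` to
`p-log-SAT(Γ_{1,d})` with at most `(g k * (log n + 1)) ^ ρ` questions: for instances of size `n` and
parameter `k`, that is, formulas in `N ≤ k (log n + 1)` variables, a circuit of size `f k * n ^ c`
computes `q` formulas in `v ≤ g k * (log n + 1)` variables, and the answer is an arbitrary property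
`ev` of the answers to the questions whether these are satisfiable. -/
def TTRed (D d ρ : ℕ) : Prop :=
  ∃ (f g : ℕ → ℕ) (c : ℕ), ∀ k, ∀ n ≥ 2, ∀ N ≤ k * (Nat.log 2 n + 1),
    ∃ v ≤ g k * (Nat.log 2 n + 1), ∃ q ≤ (g k * (Nat.log 2 n + 1)) ^ ρ,
      ∃ (C : Circuit (Fintype.card (Clause N D)))
        (o : Fin q → Clause v d → Node (Fintype.card (Clause N D))) (ev : (Fin q → Prop) → Prop),
        C.size ≤ f k * n ^ c ∧ (∀ i b j, (o i b).wires j ≠ 0 → j < C.size) ∧
        ∀ x, Sat (form x) ↔ ev fun i => Sat fun b => (o i b).eval x (C.val x)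

/-- There are nonuniform many-one reductions of fpt size from `p-log-SAT(Γ_{1,D})` to
`p-log-SAT(Γ_{1,d})`: for instances of size `n` and parameter `k`, that is, formulas in
`N ≤ k (log n + 1)` variables, a circuit of size `f k * n ^ c` computes an equivalent formula with at
most `d` literals per clause in `v ≤ g k * (log n + 1)` variables. -/
def WidthRed (D d : ℕ) : Prop :=
  ∃ (f g : ℕ → ℕ) (c : ℕ), ∀ k, ∀ n ≥ 2, ∀ N ≤ k * (Nat.log 2 n + 1),
    ∃ v ≤ g k * (Nat.log 2 n + 1),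
      ∃ (C : Circuit (Fintype.card (Clause N D)))
        (o : Clause v d → Node (Fintype.card (Clause N D))),
        C.size ≤ f k * n ^ c ∧ (∀ b j, (o b).wires j ≠ 0 → j < C.size) ∧
        ∀ x, Sat (form x) ↔ Sat fun b => (o b).eval x (C.val x)

theorem ttRed_of_widthRed {D d : ℕ} (h : WidthRed D d) : TTRed D d 0 := by
  obtain ⟨f, g, c, h⟩ := h
  refine ⟨f, g, c, fun k n hn N hN => ?_⟩
  obtain ⟨v, hv, C, o, h1, h2, h3⟩ := h k n hn N hN
  exact ⟨v, hv, 1, by simp, C, fun _ => o, fun a => a 0, h1, fun _ => h2, h3⟩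

theorem compresses_of_ttRed {D d ρ : ℕ} (h : TTRed D d ρ) : Compresses D (ρ + d) := by
  classical
  obtain ⟨f, g, c, h⟩ := h
  refine ⟨f, fun k => 2 * g k + 1, c, fun k n hn N hN => ?_⟩
  obtain ⟨v, hv, q, hq, C, o, ev, h1, h2, h3⟩ := h k n hn N hN
  obtain ⟨E⟩ : Nonempty (Fin q × Clause v d ≃ Fin (q * Fintype.card (Clause v d))) :=
    ⟨Fintype.equivFinOfCardEq (by rw [Fintype.card_prod, Fintype.card_fin])⟩
  refine ⟨q * Fintype.card (Clause v d), ?_, C, fun j => o (E.symm j).1 (E.symm j).2, h1,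
    fun i j hj => h2 _ _ j hj, fun x y hxy => ?_⟩
  · have e1 : g k * (Nat.log 2 n + 1) ≤ (2 * g k + 1) * (Nat.log 2 n + 1) :=
      Nat.mul_le_mul_right _ (by omega)
    have e2 : 2 * v + 1 ≤ (2 * g k + 1) * (Nat.log 2 n + 1) := by
      calc 2 * v + 1 ≤ 2 * (g k * (Nat.log 2 n + 1)) + (Nat.log 2 n + 1) := by omega
        _ = _ := by ring
    rw [pow_add]
    exact Nat.mul_le_mul (hq.trans (Nat.pow_le_pow_left e1 _))
      ((card_clause v d).trans (Nat.pow_le_pow_left e2 _))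
  · rw [h3 x, h3 y]
    have : (fun i => Sat fun b => (o i b).eval x (C.val x)) =
        fun i => Sat fun b => (o i b).eval y (C.val y) := by
      funext i
      congr 1
      funext b
      have := hxy (E (i, b))
      dsimp only at this
      rw [Equiv.symm_apply_apply] at this
      exact this
    rw [this]

end Pool.Agent.K6.H69.M1
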