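import Mathlib
import Pool.Agent.K6.H69.M1.Main

/-!
# `W[1] ⊆ M[1]` implies that all problems `p-log-SAT(Γ_{1,D})` reduce to one of them
-/

set_option autoImplicit false

namespace Pool.Agent.K6.H69.M1

open Finset Filter Pool.Agent.H540R2 Pool.Agent.H540R2.Circuit Pool.Agent.W953.RD
  Pool.Agent.W953.RD.CM Pool.Agent.W953.NW
open Pool.Agent.H679R2.M1 (Clause Sat card_clause)
open Pool.Agent.K6.H3.FS (fgraph fgraph_adj Wx Clq clq_iff sat_iff graph_adj Grow Grow.all and_all
  eq_const Pre Bad Grow.refl)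

/-- the graph of a formula, by a circuit -/
theorem graph_circuit {v d K D b n : ℕ} (hK : 0 < K) (hb : v / K + 1 = b) (hK2 : 2 ≤ K)
    (hD : d < D) (hn : n = K ^ D * (2 ^ b) ^ D) :
    ∃ (G : Fin (n.choose 2) → (Clause v d → Bool) → Bool)
      (P : Circuit (Fintype.card (Clause v d))),
      P.size ≤ n.choose 2 * (Fintype.card (Clause v d) * 2) ∧
      (∀ e, AvE P fun y => G e (form y)) ∧
      ∀ φ, ¬ (graph fun e => G e φ).CliqueFree (K ^ D) ↔ Sat φ := by
  classical
  have hV : Fintype.card (Wx K D b) = n := by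
    rw [Fintype.card_prod, Fintype.card_fun, Fintype.card_fun, Fintype.card_fun, Fintype.card_fin,
      Fintype.card_fin, Fintype.card_fin, Fintype.card_bool, hn]
  obtain ⟨E⟩ : Nonempty (Wx K D b ≃ Fin n) := ⟨Fintype.equivFinOfCardEq hV⟩
  set M := Fintype.card (Clause v d) with hM
  -- the bits of the graph
  let A : Fin (n.choose 2) → Wx K D b := fun e => E.symm ((pairNo n).symm e).1.1
  let B : Fin (n.choose 2) → Wx K D b := fun e => E.symm ((pairNo n).symm e).1.2
  let G : Fin (n.choose 2) → (Clause v d → Bool) → Bool := fun e φ =>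
    decide ((fgraph hK hb φ).Adj (A e) (B e))
  have hG : ∀ φ (x y : Fin n), (graph fun e => G e φ).Adj x y ↔
      (fgraph hK hb φ).Adj (E.symm x) (E.symm y) := by
    intro φ x y
    have key : ∀ x y : Fin n, ∀ h : x < y, (G (pairNo n ⟨(x, y), h⟩) φ = true ↔
        (fgraph hK hb φ).Adj (E.symm x) (E.symm y)) := by
      intro x y h
      show decide ((fgraph hK hb φ).Adj (E.symm ((pairNo n).symm (pairNo n ⟨(x, y), h⟩)).1.1)
        (E.symm ((pairNo n).symm (pairNo n ⟨(x, y), h⟩)).1.2)) = true ↔ _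
      rw [Equiv.symm_apply_apply, decide_eq_true_eq]
    rw [graph_adj]
    constructor
    · rintro (⟨h, h1⟩ | ⟨h, h1⟩)
      · exact (key x y h).1 h1
      · exact ((key y x h).1 h1).symm
    · intro h
      have hne : x ≠ y := by
        rintro rfl
        exact h.ne rfl
      rcases lt_or_gt_of_ne hne with h' | h'
      · exact Or.inl ⟨h', (key x y h').2 h⟩
      · exact Or.inr ⟨h', (key y x h').2 h.symm⟩
  have hClq : ∀ φ, Clq (graph fun e => G e φ) (K ^ D) ↔ Clq (fgraph (D := D) hK hb φ) (K ^ D) := by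
    intro φ
    constructor
    · rintro ⟨f, hf⟩
      exact ⟨fun i => E.symm (f i), fun i j hij => (hG φ _ _).1 (hf i j hij)⟩
    · rintro ⟨f, hf⟩
      refine ⟨fun i => E (f i), fun i j hij => (hG φ _ _).2 ?_⟩
      rw [Equiv.symm_apply_apply, Equiv.symm_apply_apply]
      exact hf i j hij
  obtain ⟨P1, s1, a1⟩ := Grow.all (Circuit.empty M)
    (fun e P => ∀ he : e < n.choose 2, AvE P fun y => G ⟨e, he⟩ (form y))
    (fun j P P' h h' he => (h' he).ext h) (M * 2) (n.choose 2) (fun e he P' _ => by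
      by_cases hpre : Pre (A ⟨e, he⟩) (B ⟨e, he⟩)
      · obtain ⟨P'', s, q, aq⟩ := and_all P' (fun j y => decide (∀ hj : j < M,
          (Bad hK hb (A ⟨e, he⟩) ((Fintype.equivFin (Clause v d)).symm ⟨j, hj⟩) ∨
            Bad hK hb (B ⟨e, he⟩) ((Fintype.equivFin (Clause v d)).symm ⟨j, hj⟩)) →
          form y ((Fintype.equivFin (Clause v d)).symm ⟨j, hj⟩) = false)) 1 M
          (fun j hj P'' _ => by
            by_cases hc : (Bad hK hb (A ⟨e, he⟩) ((Fintype.equivFin (Clause v d)).symm ⟨j, hj⟩) ∨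
              Bad hK hb (B ⟨e, he⟩) ((Fintype.equivFin (Clause v d)).symm ⟨j, hj⟩))
            · obtain ⟨P3, s3, q, aq⟩ := eq_const (P := P'')
                (f := fun y => form y ((Fintype.equivFin (Clause v d)).symm ⟨j, hj⟩))
                ⟨0, Av.var P'' _ 0⟩ false
              refine ⟨P3, s3, q, aq.congr fun y => ?_⟩
              rw [Bool.eq_iff_iff]
              simp only [decide_eq_true_eq]
              exact ⟨fun h _ _ => h, fun h => h hj hc⟩
            · refine ⟨P'', Grow.refl _ _, 0, (Av.const P'' true 0).congr fun y => ?_⟩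
              rw [Bool.eq_iff_iff]
              simp only [decide_eq_true_eq, true_iff]
              exact fun _ h => absurd h hc)
        refine ⟨P'', s, fun _ => ⟨q, aq.congr fun y => ?_⟩⟩
        show _ = decide ((fgraph hK hb (form y)).Adj (A ⟨e, he⟩) (B ⟨e, he⟩))
        rw [Bool.eq_iff_iff]
        simp only [decide_eq_true_eq]
        rw [fgraph_adj]
        constructor
        · intro h
          refine ⟨hpre, fun c hc => ?_⟩
          have := h (Fintype.equivFin (Clause v d) c).val (Fintype.equivFin (Clause v d) c).isLt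
            (Fintype.equivFin (Clause v d) c).isLt
          simp only [Fin.eta, Equiv.symm_apply_apply] at this
          exact this hc
        · rintro ⟨-, h⟩ j _ hj hc
          exact h _ hc
      · refine ⟨P', Grow.refl _ _, fun _ => ⟨0, (Av.const P' false 0).congr fun y => ?_⟩⟩
        show _ = decide ((fgraph hK hb (form y)).Adj (A ⟨e, he⟩) (B ⟨e, he⟩))
        rw [Bool.eq_iff_iff]
        simp only [decide_eq_true_eq, Bool.false_eq_true, false_iff]
        exact fun h => hpre (fgraph_adj.1 h).1)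
  refine ⟨G, P1, ?_, fun e => a1 e.val e.isLt e.isLt, fun φ => ?_⟩
  · have e1 := s1.2
    have e0 : (Circuit.empty M).size = 0 := rfl
    show P1.size ≤ n.choose 2 * (M * 2)
    omega
  · rw [clq_iff, hClq, ← sat_iff hK hb hK2 hD φ]

/-- **If the clique problem reduces to `p-log-SAT(Γ_{1,d})` then so do all problems
`p-log-SAT(Γ_{1,D})`.** -/
theorem widthRed_of_red {d : ℕ} (h : Red id d) (D : ℕ) : WidthRed D d := by
  classical
  obtain ⟨f, g, c, h⟩ := h
  refine ⟨fun k => 2 * ((4 * (k + 2)) ^ (D + 1)) ^ 2 * (2 * k + 1) ^ D +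
    f ((k + 2) ^ (D + 1)) * ((4 * (k + 2)) ^ (D + 1)) ^ c,
    fun k => g ((k + 2) ^ (D + 1)) * ((D + 1) * (k + 4) + 1), 2 * (D + 1) + D + (D + 1) * c,
    fun k n hn N hN => ?_⟩
  obtain ⟨K, hK⟩ : ∃ K, K = k + 2 := ⟨_, rfl⟩
  obtain ⟨D', hD'⟩ : ∃ D', D' = D + 1 := ⟨_, rfl⟩
  obtain ⟨b, hb⟩ : ∃ b, N / K + 1 = b := ⟨_, rfl⟩
  obtain ⟨n', hn'⟩ : ∃ n', n' = K ^ D' * (2 ^ b) ^ D' := ⟨_, rfl⟩
  have hK0 : 0 < K := by omega
  have hn1 : 1 ≤ n := by omega
  have hn2 : 2 ≤ n' := by
    have h1 : 2 ≤ K ^ D' := by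
      calc 2 ≤ K := by omega
        _ = K ^ 1 := (pow_one K).symm
        _ ≤ K ^ D' := Nat.pow_le_pow_right hK0 (by omega)
    rw [hn']
    exact h1.trans (Nat.le_mul_of_pos_right _ (by positivity))
  have hbl : b ≤ Nat.log 2 n + 2 := by
    have h1 : N / K ≤ Nat.log 2 n + 1 := by
      refine Nat.div_le_of_le_mul ?_
      exact hN.trans (Nat.mul_le_mul_right _ (by omega))
    omega
  have hn'le : n' ≤ (4 * K) ^ D' * n ^ D' := by
    rw [hn', ← mul_pow, ← mul_pow]
    refine Nat.pow_le_pow_left ?_ _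
    calc K * 2 ^ b ≤ K * 2 ^ (Nat.log 2 n + 2) :=
          Nat.mul_le_mul_left _ (Nat.pow_le_pow_right (by norm_num) hbl)
      _ = 4 * K * 2 ^ Nat.log 2 n := by ring
      _ ≤ 4 * K * n := Nat.mul_le_mul_left _ (Nat.pow_log_le_self 2 (by omega))
  have hlog : Nat.log 2 n' + 1 ≤ (D' * (k + 4) + 1) * (Nat.log 2 n + 1) := by
    have h1 : n' ≤ 2 ^ (D' * (K + b)) := by
      rw [hn', ← mul_pow, Nat.mul_comm D', pow_mul, pow_add]
      refine Nat.pow_le_pow_left (Nat.mul_le_mul_right _ Nat.lt_two_pow_self.le) _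
    have h2 : Nat.log 2 n' ≤ D' * (K + b) := by
      calc Nat.log 2 n' ≤ Nat.log 2 (2 ^ (D' * (K + b))) := Nat.log_mono_right h1
        _ = D' * (K + b) := Nat.log_pow (by norm_num) _
    have h3 : D' * (K + b) ≤ D' * ((k + 4) * (Nat.log 2 n + 1)) := by
      refine Nat.mul_le_mul_left _ ?_
      have : (k + 4) * (Nat.log 2 n + 1) = k * Nat.log 2 n + 4 * Nat.log 2 n + (k + 4) := by ring
      have h4 : 0 ≤ k * Nat.log 2 n := Nat.zero_le _
      omega
    calc Nat.log 2 n' + 1 ≤ D' * ((k + 4) * (Nat.log 2 n + 1)) + (Nat.log 2 n + 1) := by omega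
      _ = _ := by ring
  obtain ⟨v, hv, R, hR1, hR2, hR3⟩ := h (K ^ D') n' hn2
  obtain ⟨G, P, p1, p2, p3⟩ := graph_circuit (d := D) hK0 hb (by omega)
    (by omega : D < D') hn'
  obtain ⟨P2, s2, a2⟩ := AvE.app P R.C (fun e y => G e (form y)) p2
  choose q o w1 w2 w3 using fun b : Clause v d => a2 (R.out 0 b) (R.out_lt 0 b)
  refine ⟨v, ?_, P2, o, ?_, w1, fun x => ?_⟩
  · refine hv.trans ?_
    beta_reduce
    rw [← hK, ← hD', mul_assoc]
    exact Nat.mul_le_mul_left _ hlog
  · have e1 : P2.size ≤ n'.choose 2 * (Fintype.card (Clause N D) * 2) + f (K ^ D') * n' ^ c := by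
      have := s2.2.1
      omega
    refine e1.trans ?_
    have e2 : Fintype.card (Clause N D) ≤ (2 * k + 1) ^ D * n ^ D := card_clause_le hn hN
    have e3 : n'.choose 2 ≤ ((4 * K) ^ D' * n ^ D') ^ 2 :=
      (Nat.choose_le_pow n' 2).trans (Nat.pow_le_pow_left hn'le 2)
    beta_reduce
    rw [← hK, ← hD']
    calc n'.choose 2 * (Fintype.card (Clause N D) * 2) + f (K ^ D') * n' ^ c
        ≤ ((4 * K) ^ D' * n ^ D') ^ 2 * ((2 * k + 1) ^ D * n ^ D * 2) +
          f (K ^ D') * ((4 * K) ^ D' * n ^ D') ^ c := by gcongr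
      _ = 2 * ((4 * K) ^ D') ^ 2 * (2 * k + 1) ^ D * n ^ (2 * D' + D) +
          f (K ^ D') * ((4 * K) ^ D') ^ c * n ^ (D' * c) := by
          rw [mul_pow ((4 * K) ^ D'), mul_pow ((4 * K) ^ D'), ← pow_mul n, ← pow_mul n, pow_add,
            Nat.mul_comm D' 2]
          ring
      _ ≤ 2 * ((4 * K) ^ D') ^ 2 * (2 * k + 1) ^ D * n ^ (2 * D' + D + D' * c) +
          f (K ^ D') * ((4 * K) ^ D') ^ c * n ^ (2 * D' + D + D' * c) :=
          Nat.add_le_add (Nat.mul_le_mul_left _ (Nat.pow_le_pow_right hn1 (Nat.le_add_right _ _)))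
            (Nat.mul_le_mul_left _ (Nat.pow_le_pow_right hn1 (Nat.le_add_left _ _)))
      _ = _ := by ring
  · have hx : (fun b => (o b).eval x (P2.val x)) =
        fun b => (R.out 0 b).eval (fun e => G e (form x)) (R.C.val fun e => G e (form x)) :=
      funext fun b => w2 b x
    rw [hx, ← p3 (form x)]
    have hans : R.answer (fun e => G e (form x)) = decide (Sat fun b => (R.out 0 b).eval
        (fun e => G e (form x)) (R.C.val fun e => G e (form x))) := by
      unfold TT.answer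
      unfold TT.ManyOne at hR1
      rw [hR1]
    obtain ⟨r1, r2⟩ := hR3 (fun e => G e (form x))
    rw [hans] at r1 r2
    constructor
    · intro h1
      exact of_decide_eq_true (r1 h1)
    · intro h1 h2
      exact of_decide_eq_false (r2 h2) h1

end Pool.Agent.K6.H69.M1
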